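import Mathlib

/-!
# Merging of neighbours (asymptotic Sidorenko, T6-A)

`cut`: a self-map with bounded fibres can be cut at few points so that all orbits are short.
`merge`: in a graph of bounded degree all but few vertices have two neighbours in one cluster, the clusters being
of bounded size.
-/

namespace SidA

open Finset Function

variable {V : Type*} [Fintype V] [DecidableEq V]

/-- the map with the points of `C` made fixed points -/
def cutMap (ψ : V → V) (C : Finset V) (x : V) : V := if x ∈ C then x else ψ x

/-- forward path with `R` points -/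
def path (ψ : V → V) (R : ℕ) (x : V) : Finset V := (range R).image (fun i => ψ^[i] x)

omit [Fintype V] in
theorem mem_path {ψ : V → V} {R : ℕ} {x z : V} : z ∈ path ψ R x ↔ ∃ i < R, ψ^[i] x = z := by
  simp [path]

/-- **Cutting.** At most `|V| / R` points can be chosen such that every orbit of the cut map has a repetition among
its first `2 R + 1` points. -/
theorem cut (ψ : V → V) (R : ℕ) (hR : 1 ≤ R) :
    ∃ C : Finset V, C.card * R ≤ Fintype.card V ∧
      ∀ y, ∃ i j, i < j ∧ j ≤ 2 * R ∧ (cutMap ψ C)^[i] y = (cutMap ψ C)^[j] y := by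
  classical
  -- maximal family of disjoint good paths
  let good : Finset V → Prop := fun S =>
    (∀ x ∈ S, (path ψ R x).card = R) ∧ (S : Set V).PairwiseDisjoint (path ψ R)
  obtain ⟨S, hS, hmax⟩ : ∃ S : Finset V, good S ∧ ∀ S', good S' → S'.card ≤ S.card := by
    have hne : (univ.filter good).Nonempty := ⟨∅, by simp [good]⟩
    obtain ⟨S, hS, hm⟩ := exists_max_image (univ.filter good) (fun S => S.card) hne
    exact ⟨S, (mem_filter.1 hS).2, fun S' h' => hm S' (by simp [h'])⟩
  have hcard : S.card * R ≤ Fintype.card V := by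
    have h1 : (S.biUnion (path ψ R)).card = ∑ x ∈ S, (path ψ R x).card := card_biUnion hS.2
    have h2 : ∑ x ∈ S, (path ψ R x).card = S.card * R := by
      rw [sum_congr rfl hS.1]; simp
    calc S.card * R = (S.biUnion (path ψ R)).card := by rw [h1, h2]
      _ ≤ Fintype.card V := card_le_univ _
  refine ⟨S.image (fun x => ψ^[R-1] x), (Nat.mul_le_mul_right _ card_image_le).trans hcard, ?_⟩
  intro y
  set C := S.image (fun x => ψ^[R-1] x) with hC
  by_contra hcon
  push Not at hcon
  -- no repetition
  have hnotC : ∀ i, i < 2 * R → (cutMap ψ C)^[i] y ∉ C := by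
    intro i hi hmem
    refine hcon i (i+1) (Nat.lt_succ_self i) hi ?_
    rw [Function.iterate_succ_apply']
    simp [cutMap, hmem]
  have hiter : ∀ i, i ≤ 2 * R → (cutMap ψ C)^[i] y = ψ^[i] y := by
    intro i
    induction i with
    | zero => intro _; rfl
    | succ i ih =>
      intro hi
      have h1 := ih (by omega)
      rw [Function.iterate_succ_apply', Function.iterate_succ_apply', ← h1]
      have := hnotC i (by omega)
      simp [cutMap, this]
  have hψnotC : ∀ i, i < 2 * R → ψ^[i] y ∉ C := fun i hi => by
    rw [← hiter i hi.le]; exact hnotC i hi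
  have hinj : ∀ i j, i < j → j ≤ 2 * R → ψ^[i] y ≠ ψ^[j] y := by
    intro i j hij hj
    rw [← hiter i (by omega), ← hiter j hj]
    exact hcon i j hij hj
  have hpathcard : (path ψ R y).card = R := by
    rw [path, card_image_of_injOn, card_range]
    intro i hi j hj hij
    simp only [coe_range, Set.mem_Iio] at hi hj
    by_contra hne
    rcases lt_or_gt_of_ne hne with h | h
    · exact hinj i j h (by omega) hij
    · exact hinj j i h (by omega) hij.symm
  -- maximality
  have hyS : y ∉ S := by
    intro hyS
    exact hψnotC (R-1) (by omega) (mem_image.2 ⟨y, hyS, rfl⟩)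
  have hbad : ¬ good (insert y S) := by
    intro hg
    have := hmax _ hg
    rw [card_insert_of_notMem hyS] at this
    omega
  have hex : ∃ x ∈ S, ¬ Disjoint (path ψ R y) (path ψ R x) := by
    by_contra hno
    push Not at hno
    refine hbad ⟨?_, ?_⟩
    · intro x hx
      rcases mem_insert.1 hx with h | h
      · rw [h]; exact hpathcard
      · exact hS.1 x h
    · rw [coe_insert]
      refine (Set.pairwiseDisjoint_insert_of_notMem (by simpa using hyS)).2 ⟨hS.2, ?_⟩
      intro x hx
      exact hno x (by simpa using hx)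
  obtain ⟨x, hxS, hx⟩ := hex
  rw [not_disjoint_iff] at hx
  obtain ⟨z, hz1, hz2⟩ := hx
  obtain ⟨i, hi, hiz⟩ := mem_path.1 hz1
  obtain ⟨j, hj, hjz⟩ := mem_path.1 hz2
  refine hψnotC (i + (R - 1 - j)) (by omega) (mem_image.2 ⟨x, hxS, ?_⟩)
  have e1 : ψ^[i + (R-1-j)] y = ψ^[R-1-j] (ψ^[i] y) := by
    rw [Nat.add_comm, Function.iterate_add_apply]
  have e2 : ψ^[R-1] x = ψ^[R-1-j] (ψ^[j] x) := by
    rw [← Function.iterate_add_apply]; congr 1; omega
  rw [e1, e2, hiz, hjz]

/-- fibres of iterates -/
theorem card_fiber_iterate (f : V → V) (K : ℕ) (hK : ∀ y, (univ.filter (fun x => f x = y)).card ≤ K) :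
    ∀ (i : ℕ) (z : V), (univ.filter (fun x => f^[i] x = z)).card ≤ K ^ i := by
  classical
  intro i
  induction i with
  | zero =>
    intro z
    simp only [iterate_zero, id_eq, pow_zero]
    rw [Finset.filter_eq']; simp
  | succ i ih =>
    intro z
    have hsub : univ.filter (fun x => f^[i+1] x = z) ⊆
        (univ.filter (fun w => f w = z)).biUnion (fun w => univ.filter (fun x => f^[i] x = w)) := by
      intro x hx
      simp only [mem_filter, mem_univ, true_and] at hx
      simp only [mem_biUnion, mem_filter, mem_univ, true_and]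
      exact ⟨f^[i] x, by rw [← Function.iterate_succ_apply' f i x]; exact hx, rfl⟩
    calc (univ.filter (fun x => f^[i+1] x = z)).card
        ≤ ((univ.filter (fun w => f w = z)).biUnion (fun w => univ.filter (fun x => f^[i] x = w))).card :=
          card_le_card hsub
      _ ≤ ∑ w ∈ univ.filter (fun w => f w = z), (univ.filter (fun x => f^[i] x = w)).card := card_biUnion_le
      _ ≤ ∑ w ∈ univ.filter (fun w => f w = z), K ^ i := sum_le_sum (fun w _ => ih w)
      _ = (univ.filter (fun w => f w = z)).card * K ^ i := by simp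
      _ ≤ K * K ^ i := Nat.mul_le_mul_right _ (hK z)
      _ = K ^ (i+1) := by ring

/-- two points are equivalent if their orbits meet -/
def orbSetoid (f : V → V) : Setoid V where
  r x y := ∃ i j : ℕ, f^[i] x = f^[j] y
  iseqv := by
    refine ⟨fun x => ⟨0, 0, rfl⟩, ?_, ?_⟩
    · rintro x y ⟨i, j, h⟩; exact ⟨j, i, h.symm⟩
    · rintro x y z ⟨i, j, h⟩ ⟨i', j', h'⟩
      rcases le_total j i' with hle | hle
      · refine ⟨(i' - j) + i, j', ?_⟩
        rw [Function.iterate_add_apply, h, ← Function.iterate_add_apply, Nat.sub_add_cancel hle, h']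
      · refine ⟨i, (j - i') + j', ?_⟩
        rw [Function.iterate_add_apply, ← h', ← Function.iterate_add_apply, Nat.sub_add_cancel hle, h]

omit [Fintype V] [DecidableEq V] in
theorem short_orbit (f : V → V) (R : ℕ) (y : V) (h : ∃ i j, i < j ∧ j ≤ 2 * R ∧ f^[i] y = f^[j] y) :
    ∀ n, ∃ m, m < 2 * R ∧ f^[m] y = f^[n] y := by
  obtain ⟨i, j, hij, hj, he⟩ := h
  intro n
  induction n with
  | zero => exact ⟨0, by omega, rfl⟩
  | succ n ih =>
    obtain ⟨m, hm, hmn⟩ := ih
    by_cases hlt : m + 1 < 2 * R
    · exact ⟨m+1, hlt, by rw [Function.iterate_succ_apply', Function.iterate_succ_apply', hmn]⟩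
    · -- m + 1 = 2 R
      have hm1 : m + 1 = 2 * R := by omega
      refine ⟨(2 * R - j) + i, by omega, ?_⟩
      rw [Function.iterate_succ_apply' f n, ← hmn, ← Function.iterate_succ_apply' f m,
        Function.iterate_add_apply, he, ← Function.iterate_add_apply]
      congr 1; omega

/-- **Clusters of a cut map.** -/
theorem clusters (ψ : V → V) (R K : ℕ) (hR : 1 ≤ R)
    (hK : ∀ y, (univ.filter (fun x => ψ x = y)).card ≤ K) :
    ∃ (C : Finset V) (cl : V → V), C.card * R ≤ Fintype.card V ∧
      (∀ z, (univ.filter (fun x => cl x = z)).card ≤ (2 * R) * ((2 * R) * (K + 1) ^ (2 * R))) ∧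
      ∀ x, x ∉ C → cl x = cl (ψ x) := by
  classical
  obtain ⟨C, hC, hrep⟩ := cut ψ R hR
  set f := cutMap ψ C with hf
  have hKf : ∀ y, (univ.filter (fun x => f x = y)).card ≤ K + 1 := by
    intro y
    have hsub : univ.filter (fun x => f x = y) ⊆ insert y (univ.filter (fun x => ψ x = y)) := by
      intro x hx
      simp only [mem_filter, mem_univ, true_and] at hx
      simp only [mem_insert, mem_filter, mem_univ, true_and]
      by_cases hxC : x ∈ C
      · left; simpa [hf, cutMap, hxC] using hx
      · right; simpa [hf, cutMap, hxC] using hx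
    calc _ ≤ (insert y (univ.filter (fun x => ψ x = y))).card := card_le_card hsub
      _ ≤ (univ.filter (fun x => ψ x = y)).card + 1 := card_insert_le _ _
      _ ≤ K + 1 := Nat.add_le_add_right (hK y) 1
  let s : Setoid V := orbSetoid f
  refine ⟨C, fun x => (Quotient.mk s x).out, hC, ?_, ?_⟩
  · intro z
    have hsub : univ.filter (fun x => (Quotient.mk s x).out = z) ⊆
        (range (2 * R)).biUnion (fun j => (range (2 * R)).biUnion
          (fun i => univ.filter (fun x => f^[i] x = f^[j] z))) := by
      intro x hx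
      simp only [mem_filter, mem_univ, true_and] at hx
      have hxz : s.r x z := by
        have h1 : Quotient.mk s ((Quotient.mk s x).out) = Quotient.mk s x := Quotient.out_eq _
        rw [hx] at h1
        exact (Quotient.exact h1.symm : x ≈ z)
      obtain ⟨i, j, hij⟩ := hxz
      obtain ⟨i', hi', hi2⟩ := short_orbit f R x (hrep x) i
      obtain ⟨j', hj', hj2⟩ := short_orbit f R z (hrep z) j
      simp only [mem_biUnion, mem_range, mem_filter, mem_univ, true_and]
      exact ⟨j', hj', i', hi', by rw [hi2, hj2, hij]⟩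
    calc (univ.filter (fun x => (Quotient.mk s x).out = z)).card
        ≤ _ := card_le_card hsub
      _ ≤ ∑ j ∈ range (2 * R), ((range (2 * R)).biUnion
          (fun i => univ.filter (fun x => f^[i] x = f^[j] z))).card := card_biUnion_le
      _ ≤ ∑ j ∈ range (2 * R), ∑ i ∈ range (2 * R), (univ.filter (fun x => f^[i] x = f^[j] z)).card :=
          sum_le_sum (fun j _ => card_biUnion_le)
      _ ≤ ∑ j ∈ range (2 * R), ∑ i ∈ range (2 * R), (K + 1) ^ (2 * R) := by
          refine sum_le_sum (fun j _ => sum_le_sum (fun i hi => ?_))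
          exact (card_fiber_iterate f (K+1) hKf i _).trans
            (Nat.pow_le_pow_right (Nat.succ_pos K) (mem_range.1 hi).le)
      _ = (2 * R) * ((2 * R) * (K + 1) ^ (2 * R)) := by simp
  · intro x hx
    have : Quotient.mk s x = Quotient.mk s (ψ x) := by
      apply Quotient.sound
      show ∃ i j : ℕ, f^[i] x = f^[j] (ψ x)
      exact ⟨1, 0, by simp [hf, cutMap, hx]⟩
    simp only [this]

/-- **Merge lemma.** Minimum degree at least 2, maximum degree at most `K`, `|X| ≤ |N(X)| + d` for all `X`: there are
clusters of bounded size such that all but `d + |V| / R` vertices have two neighbours in one cluster. -/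
theorem merge (G : SimpleGraph V) [DecidableRel G.Adj] (K R d : ℕ) (hR : 1 ≤ R)
    (hdeg : ∀ v, G.degree v ≤ K) (hdeg2 : ∀ v, 2 ≤ G.degree v)
    (hall : ∀ X : Finset V, X.card ≤ (X.biUnion (fun v => G.neighborFinset v)).card + d) :
    ∃ cl : V → V, (∀ z, (univ.filter (fun x => cl x = z)).card ≤ (2 * R) * ((2 * R) * (K + 2) ^ (2 * R))) ∧
      ∃ U : Finset V, (∀ v, v ∉ U → ∃ x y, x ≠ y ∧ G.Adj v x ∧ G.Adj v y ∧ cl x = cl y) ∧
        (U.card - d) * R ≤ Fintype.card V := by
  classical
  -- Hall with `d` dummies
  let t : V → Finset (V ⊕ Fin d) := fun v => (G.neighborFinset v).disjSum univ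
  have hH : ∀ s : Finset V, s.card ≤ (s.biUnion t).card := by
    intro s
    rcases s.eq_empty_or_nonempty with rfl | ⟨v0, hv0⟩
    · simp
    · have hsub : (s.biUnion (fun v => G.neighborFinset v)).disjSum (univ : Finset (Fin d)) ⊆ s.biUnion t := by
        intro z hz
        rw [mem_biUnion]
        rcases Finset.mem_disjSum.1 hz with ⟨a, ha, rfl⟩ | ⟨b, hb, rfl⟩
        · obtain ⟨v, hv, hav⟩ := mem_biUnion.1 ha
          exact ⟨v, hv, Finset.inl_mem_disjSum.2 hav⟩
        · exact ⟨v0, hv0, Finset.inr_mem_disjSum.2 hb⟩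
      have hc := card_le_card hsub
      rw [card_disjSum, card_univ, Fintype.card_fin] at hc
      exact (hall s).trans hc
  obtain ⟨p, hpinj, hp⟩ := (Finset.all_card_le_biUnion_card_iff_exists_injective t).1 hH
  -- second neighbour
  have hs : ∀ v x, ∃ y, G.Adj v y ∧ y ≠ x := by
    intro v x
    have : 1 ≤ ((G.neighborFinset v).erase x).card := by
      have h1 := Finset.pred_card_le_card_erase (s := G.neighborFinset v) (a := x)
      have h2 := hdeg2 v
      rw [← G.card_neighborFinset_eq_degree] at h2
      omega
    obtain ⟨y, hy⟩ := Finset.card_pos.1 this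
    rw [mem_erase] at hy
    exact ⟨y, by simpa using hy.2, hy.1⟩
  choose sec hsec using hs
  -- the functional graph
  let ψ : V → V := fun x => if h : ∃ v, p v = Sum.inl x then sec h.choose x else x
  have hψ : ∀ v x, p v = Sum.inl x → ψ x = sec v x := by
    intro v x hv
    have hex : ∃ v, p v = Sum.inl x := ⟨v, hv⟩
    have heq : hex.choose = v := hpinj (hex.choose_spec.trans hv.symm)
    simp only [ψ, hex, dif_pos, heq]
  have hKψ : ∀ y, (univ.filter (fun x => ψ x = y)).card ≤ K + 1 := by
    intro y
    have hsub : univ.filter (fun x => ψ x = y) ⊆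
        insert y ((G.neighborFinset y).image (fun v => Sum.elim id (fun _ => y) (p v))) := by
      intro x hx
      simp only [mem_filter, mem_univ, true_and] at hx
      rw [mem_insert]
      by_cases hex : ∃ v, p v = Sum.inl x
      · right
        obtain ⟨v, hv⟩ := hex
        rw [mem_image]
        refine ⟨v, ?_, by simp [hv]⟩
        have h1 : sec v x = y := by rw [← hψ v x hv]; exact hx
        have h2 := (hsec v x).1
        rw [h1] at h2
        simpa using h2.symm
      · left
        have : ψ x = x := by simp only [ψ, hex, dif_neg, not_false_iff]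
        rw [← this, hx]
    calc _ ≤ _ := card_le_card hsub
      _ ≤ ((G.neighborFinset y).image (fun v => Sum.elim id (fun _ => y) (p v))).card + 1 :=
          card_insert_le _ _
      _ ≤ (G.neighborFinset y).card + 1 := Nat.add_le_add_right card_image_le 1
      _ ≤ K + 1 := by
          rw [G.card_neighborFinset_eq_degree]; exact Nat.add_le_add_right (hdeg y) 1
  obtain ⟨C, cl, hCR, hfib, hcl⟩ := clusters ψ R (K+1) hR hKψ
  refine ⟨cl, hfib, univ.filter (fun v => (p v).isRight) ∪
    univ.filter (fun v => ∃ x ∈ C, p v = Sum.inl x), ?_, ?_⟩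
  · intro v hv
    simp only [mem_union, mem_filter, mem_univ, true_and, not_or, not_exists, not_and] at hv
    rcases hpv : p v with x | b
    · have hxC : x ∉ C := fun h => hv.2 x h hpv
      have hx : x ∈ G.neighborFinset v := by
        have := hp v
        rw [hpv] at this
        exact Finset.inl_mem_disjSum.1 this
      refine ⟨x, sec v x, (hsec v x).2.symm, by simpa using hx, (hsec v x).1, ?_⟩
      rw [hcl x hxC, hψ v x hpv]
    · exact absurd (by simp [hpv]) hv.1
  · have h1 : (univ.filter (fun v => (p v).isRight)).card ≤ d := by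
      have : (univ.filter (fun v => (p v).isRight)).card ≤
          ((univ : Finset (Fin d)).image (Sum.inr : Fin d → V ⊕ Fin d)).card := by
        refine card_le_card_of_injOn p ?_ (fun _ _ _ _ h => hpinj h)
        intro v hv
        simp only [coe_filter, mem_univ, true_and, Set.mem_ofPred_eq] at hv
        obtain ⟨b, hb⟩ := Sum.isRight_iff.1 hv
        simp only [coe_image, coe_univ, Set.image_univ, Set.mem_range]
        exact ⟨b, hb.symm⟩
      exact this.trans (card_image_le.trans (by simp))
    have h2 : (univ.filter (fun v => ∃ x ∈ C, p v = Sum.inl x)).card ≤ C.card := by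
      refine card_le_card_of_injOn (fun v => Sum.elim id (fun _ => v) (p v)) ?_ ?_
      · intro v hv
        simp only [coe_filter, mem_univ, true_and, Set.mem_ofPred_eq] at hv
        obtain ⟨x, hx, hvx⟩ := hv
        simpa [hvx] using hx
      · intro v hv w hw hvw
        simp only [coe_filter, mem_univ, true_and, Set.mem_ofPred_eq] at hv hw
        obtain ⟨x, hx, hvx⟩ := hv
        obtain ⟨y, hy, hwy⟩ := hw
        simp only [hvx, hwy, Sum.elim_inl, id_eq] at hvw
        exact hpinj (by rw [hvx, hwy, hvw])
    have h3 := card_union_le (univ.filter (fun v => (p v).isRight))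
      (univ.filter (fun v => ∃ x ∈ C, p v = Sum.inl x))
    exact (Nat.mul_le_mul_right _ (by omega)).trans hCR

/-- the edges at `X` are edges at `N(X)` -/
theorem sum_degree_le (G : SimpleGraph V) [DecidableRel G.Adj] (X : Finset V) :
    ∑ v ∈ X, G.degree v ≤ ∑ u ∈ X.biUnion (fun v => G.neighborFinset v), G.degree u := by
  classical
  have h1 : ∀ v, G.degree v = ∑ u, if G.Adj v u then 1 else 0 := by
    intro v
    rw [← G.card_neighborFinset_eq_degree, ← Finset.card_filter]
    congr 1
    ext u; simp
  calc ∑ v ∈ X, G.degree v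
      = ∑ v ∈ X, ∑ u ∈ X.biUnion (fun v => G.neighborFinset v), (if G.Adj v u then 1 else 0) := by
        refine sum_congr rfl (fun v hv => ?_)
        rw [h1 v]
        symm
        apply Finset.sum_subset (subset_univ _)
        intro u _ hu
        rw [if_neg]
        intro h
        exact hu (mem_biUnion.2 ⟨v, hv, by simpa using h⟩)
    _ = ∑ u ∈ X.biUnion (fun v => G.neighborFinset v), ∑ v ∈ X, (if G.Adj v u then 1 else 0) := sum_comm
    _ ≤ ∑ u ∈ X.biUnion (fun v => G.neighborFinset v), G.degree u := by
        refine sum_le_sum (fun u _ => ?_)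
        rw [h1 u]
        calc ∑ v ∈ X, (if G.Adj v u then 1 else 0) ≤ ∑ v, (if G.Adj v u then 1 else 0) :=
              sum_le_sum_of_subset (subset_univ _)
          _ = ∑ v, (if G.Adj u v then 1 else 0) := by simp only [G.adj_comm]

/-- Deficiency in terms of the minimum degree `δ` and the number of edges `m`: `δ |X| + δ k ≤ δ |N(X)| + 2 m`. -/
theorem hall_of_minDegree (G : SimpleGraph V) [DecidableRel G.Adj] (δ : ℕ)
    (hδ : ∀ v, δ ≤ G.degree v) (X : Finset V) :
    δ * X.card + δ * Fintype.card V ≤
      δ * (X.biUnion (fun v => G.neighborFinset v)).card + 2 * G.edgeFinset.card := by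
  classical
  set Y := X.biUnion (fun v => G.neighborFinset v) with hY
  have h1 : δ * X.card ≤ ∑ v ∈ X, G.degree v := by
    rw [mul_comm, ← smul_eq_mul]
    exact Finset.card_nsmul_le_sum X _ _ (fun v _ => hδ v)
  have h2 := sum_degree_le G X
  have h3 : ∑ u ∈ Y, G.degree u + ∑ u ∈ Yᶜ, G.degree u = 2 * G.edgeFinset.card := by
    rw [Finset.sum_add_sum_compl, G.sum_degrees_eq_twice_card_edges]
  have h4 : δ * Yᶜ.card ≤ ∑ u ∈ Yᶜ, G.degree u := by
    rw [mul_comm, ← smul_eq_mul]
    exact Finset.card_nsmul_le_sum _ _ _ (fun v _ => hδ v)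
  have h5 : Yᶜ.card + Y.card = Fintype.card V := by rw [add_comm]; exact Finset.card_add_card_compl Y
  have h6 : δ * Fintype.card V = δ * Yᶜ.card + δ * Y.card := by rw [← h5, mul_add]
  rw [← hY] at h2
  omega

end SidA
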